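import Pool.Agent.W394.BQN.Stm

/-!
# Part BQN-V1 of project BQN (owner helper394): diagonal matrices can be moved to the end
-/

set_option autoImplicit false

noncomputable section

namespace Pool.Agent.W129.BQN

open BQ Pool.Agent.W394.BQN

theorem diag_comm (R : Type) [CommRing R] (u v : R) (hu : IsUnit u) (hv : IsUnit v)
    (N : Matrix (Fin 2) (Fin 2) R) (hN : N ∈ E2 R) :
    ∃ N' ∈ E2 R, !![u, 0; 0, v] * N = N' * !![u, 0; 0, v] := by
  obtain ⟨u', hu'⟩ := hu.exists_left_inv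
  obtain ⟨v', hv'⟩ := hv.exists_left_inv
  refine Submonoid.closure_induction (motive := fun N _ => ∃ N' ∈ E2 R,
    !![u, 0; 0, v] * N = N' * !![u, 0; 0, v]) ?_ ?_ ?_ hN
  · rintro M (⟨c, rfl⟩ | ⟨c, rfl⟩)
    · refine ⟨!![1, u * c * v'; 0, 1], Submonoid.subset_closure (Or.inl ⟨_, rfl⟩), ?_⟩
      have h : u * c * v' * v = u * c := by rw [mul_assoc, hv', mul_one]
      ext i j
      fin_cases i <;> fin_cases j <;> simp [Matrix.mul_apply, Fin.sum_univ_two, h]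
    · refine ⟨!![1, 0; v * c * u', 1], Submonoid.subset_closure (Or.inr ⟨_, rfl⟩), ?_⟩
      have h : v * c * u' * u = v * c := by rw [mul_assoc, hu', mul_one]
      ext i j
      fin_cases i <;> fin_cases j <;> simp [Matrix.mul_apply, Fin.sum_univ_two, h]
  · exact ⟨1, Submonoid.one_mem _, by rw [mul_one, one_mul]⟩
  · rintro A B hA hB ⟨A', hA', hA''⟩ ⟨B', hB', hB''⟩
    refine ⟨A' * B', Submonoid.mul_mem _ hA' hB', ?_⟩
    rw [← mul_assoc, hA'', mul_assoc, hB'', mul_assoc]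

theorem diag_mul (R : Type) [CommRing R] (u v u' v' : R) :
    (!![u, 0; 0, v] * !![u', 0; 0, v'] : Matrix (Fin 2) (Fin 2) R) = !![u * u', 0; 0, v * v'] := by
  ext i j
  fin_cases i <;> fin_cases j <;> simp [Matrix.mul_apply, Fin.sum_univ_two]

theorem diag_one (R : Type) [CommRing R] :
    (!![1, 0; 0, 1] : Matrix (Fin 2) (Fin 2) R) = 1 := by
  ext i j
  fin_cases i <;> fin_cases j <;> simp

theorem GG_dec (R : Type) [CommRing R] (M : Matrix (Fin 2) (Fin 2) R) (hM : M ∈ GG R) :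
    ∃ N ∈ E2 R, ∃ u v : R, IsUnit u ∧ IsUnit v ∧ M = N * !![u, 0; 0, v] := by
  refine Submonoid.closure_induction (motive := fun M _ => ∃ N ∈ E2 R, ∃ u v : R,
    IsUnit u ∧ IsUnit v ∧ M = N * !![u, 0; 0, v]) ?_ ?_ ?_ hM
  · rintro M (⟨c, rfl⟩ | ⟨c, rfl⟩ | ⟨u, v, hu, hv, rfl⟩)
    · exact ⟨_, Submonoid.subset_closure (Or.inl ⟨c, rfl⟩), 1, 1, isUnit_one, isUnit_one, by
        rw [diag_one, mul_one]⟩
    · exact ⟨_, Submonoid.subset_closure (Or.inr ⟨c, rfl⟩), 1, 1, isUnit_one, isUnit_one, by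
        rw [diag_one, mul_one]⟩
    · exact ⟨1, Submonoid.one_mem _, u, v, hu, hv, by rw [one_mul]⟩
  · exact ⟨1, Submonoid.one_mem _, 1, 1, isUnit_one, isUnit_one, by rw [diag_one, mul_one]⟩
  · rintro A B hA hB ⟨N, hN, u, v, hu, hv, rfl⟩ ⟨N', hN', u', v', hu', hv', rfl⟩
    obtain ⟨N'', hN'', h⟩ := diag_comm R u v hu hv N' hN'
    refine ⟨N * N'', Submonoid.mul_mem _ hN hN'', u * u', v * v', hu.mul hu', hv.mul hv', ?_⟩
    rw [← diag_mul, mul_assoc N, ← mul_assoc _ N', h, mul_assoc N'', mul_assoc N]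

theorem t_V1 : S_V1 := by
  intro R _ a b
  rintro ⟨M, hM, hu⟩
  obtain ⟨N, hN, u, v, hu', hv', rfl⟩ := GG_dec R M hM
  have hw : IsUnit (a * N 0 0 + b * N 1 0) := by
    have h : a * (N * !![u, 0; 0, v]) 0 0 + b * (N * !![u, 0; 0, v]) 1 0
        = (a * N 0 0 + b * N 1 0) * u := by
      simp [Matrix.mul_apply, Fin.sum_univ_two]
      ring
    rw [h] at hu
    exact isUnit_of_mul_isUnit_left hu
  obtain ⟨w', hw'⟩ := hw.exists_left_inv
  set w := a * N 0 0 + b * N 1 0 with hwdef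
  set c := a * N 0 1 + b * N 1 1 with hcdef
  have hE1 : (!![1, w' * (1 - c); 0, 1] : Matrix (Fin 2) (Fin 2) R) ∈ E2 R :=
    Submonoid.subset_closure (Or.inl ⟨_, rfl⟩)
  have hE2 : (!![1, 0; 1 - w, 1] : Matrix (Fin 2) (Fin 2) R) ∈ E2 R :=
    Submonoid.subset_closure (Or.inr ⟨_, rfl⟩)
  have hE3 : (!![1, -1; 0, 1] : Matrix (Fin 2) (Fin 2) R) ∈ E2 R :=
    Submonoid.subset_closure (Or.inl ⟨_, rfl⟩)
  have key : ∀ (X : Matrix (Fin 2) (Fin 2) R) (j : Fin 2),
      a * (N * X) 0 j + b * (N * X) 1 j = w * X 0 j + c * X 1 j := by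
    intro X j
    simp only [Matrix.mul_apply, Fin.sum_univ_two, hwdef, hcdef]
    ring
  have hprod : (!![1, w' * (1 - c); 0, 1] * (!![1, 0; 1 - w, 1] * !![1, -1; 0, 1]) :
      Matrix (Fin 2) (Fin 2) R) =
      !![1 + w' * (1 - c) * (1 - w), -1 + w' * (1 - c) * (-(1 - w) + 1);
        1 - w, -(1 - w) + 1] := by
    ext i j
    fin_cases i <;> fin_cases j <;> simp [Matrix.mul_apply, Fin.sum_univ_two]
  refine ⟨N * (!![1, w' * (1 - c); 0, 1] * (!![1, 0; 1 - w, 1] * !![1, -1; 0, 1])),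
    Submonoid.mul_mem _ hN (Submonoid.mul_mem _ hE1 (Submonoid.mul_mem _ hE2 hE3)), ?_, ?_⟩
  · rw [key, hprod]
    simp only [Matrix.of_apply, Matrix.cons_val', Matrix.cons_val_zero, Matrix.cons_val_one,
      Matrix.cons_val_fin_one]
    linear_combination (1 - c) * (1 - w) * hw'
  · rw [key, hprod]
    simp only [Matrix.of_apply, Matrix.cons_val', Matrix.cons_val_zero, Matrix.cons_val_one,
      Matrix.cons_val_fin_one]
    linear_combination w * (1 - c) * hw'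

end Pool.Agent.W129.BQN
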